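import Pool.Agent.V1152.QuarticReal

/-!
# Local connectedness by analytic paths does not give Nash approximation

The surface `T = {z = √(x ^ 4 + y ^ 4)}` in `ℝ ^ 3` is semialgebraic and locally connected by
analytic paths. The homeomorphism `f(u, v) = (u, v, √(u ^ 4 + v ^ 4))` from the plane to `T` is not
a limit of Nash maps to `T`: the pull back of the holomorphic differential `(x dy - y dx) / z` of the
elliptic curve `z ^ 2 = x ^ 4 + y ^ 4` under a real analytic map close to `f` would be a continuous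
closed form on the plane with a nonzero period.
-/

set_option autoImplicit false

namespace Pool.Agent.Results.MP_1c24b6_ag.NotTarget

open MvPolynomial Filter Topology

/-! ## Definitions -/

/-- Basic semialgebraic subsets of `ℝ ^ ι`. -/
def IsBasic {ι : Type} (A : Set (ι → ℝ)) : Prop :=
  ∃ E I : Set (MvPolynomial ι ℝ), E.Finite ∧ I.Finite ∧
    A = {x | (∀ f ∈ E, eval x f = 0) ∧ ∀ g ∈ I, 0 < eval x g}

/-- Semialgebraic subsets of `ℝ ^ ι`: finite unions of basic ones. -/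
def IsSemialgebraic {ι : Type} (A : Set (ι → ℝ)) : Prop :=
  ∃ F : Set (Set (ι → ℝ)), F.Finite ∧ (∀ B ∈ F, IsBasic B) ∧ A = ⋃₀ F

/-- The graph of `f` over `A`. -/
def graphOn {m n : ℕ} (f : (Fin m → ℝ) → (Fin n → ℝ)) (A : Set (Fin m → ℝ)) :
    Set (Fin m ⊕ Fin n → ℝ) :=
  {z | (fun i => z (Sum.inl i)) ∈ A ∧ (fun j => z (Sum.inr j)) = f (fun i => z (Sum.inl i))}

/-- `f` is semialgebraic on `A`: its graph is semialgebraic. -/
def SemialgebraicOn {m n : ℕ} (f : (Fin m → ℝ) → (Fin n → ℝ)) (A : Set (Fin m → ℝ)) : Prop :=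
  IsSemialgebraic (graphOn f A)

/-- Nash functions on the open semialgebraic set `Ω`: real analytic functions whose graph is
semialgebraic. -/
structure IsNashFunction {m : ℕ} (h : (Fin m → ℝ) → ℝ) (Ω : Set (Fin m → ℝ)) : Prop where
  isOpen : IsOpen Ω
  semialgebraic : IsSemialgebraic Ω
  analytic : AnalyticOnNhd ℝ h Ω
  graph : SemialgebraicOn (fun x (_ : Fin 1) => h x) Ω

/-- Nash maps `S → T`: every component is the restriction of a Nash function on an open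
semialgebraic neighbourhood of `S`. -/
def IsNashMap {m n : ℕ} (S : Set (Fin m → ℝ)) (T : Set (Fin n → ℝ))
    (g : (Fin m → ℝ) → (Fin n → ℝ)) : Prop :=
  Set.MapsTo g S T ∧ ∀ i, ∃ (Ω : Set (Fin m → ℝ)) (h : (Fin m → ℝ) → ℝ),
    S ⊆ Ω ∧ IsNashFunction h Ω ∧ ∀ x ∈ S, g x i = h x

/-- Continuous semialgebraic maps `S → T`. -/
def IsContinuousSemialgebraicMap {m n : ℕ} (S : Set (Fin m → ℝ)) (T : Set (Fin n → ℝ))
    (f : (Fin m → ℝ) → (Fin n → ℝ)) : Prop :=
  Set.MapsTo f S T ∧ ContinuousOn f S ∧ SemialgebraicOn f S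

/-- `T` is an `(𝒩, 0)`-approximation target space. -/
def IsATS {n : ℕ} (T : Set (Fin n → ℝ)) : Prop :=
  ∀ m : ℕ, 1 ≤ m → ∀ S : Set (Fin m → ℝ), S.Nonempty → IsSemialgebraic S →
    LocallyCompactSpace S → ∀ f, IsContinuousSemialgebraicMap S T f →
    ∀ ε : (Fin m → ℝ) → ℝ, ContinuousOn ε S → SemialgebraicOn (fun x (_ : Fin 1) => ε x) S →
    (∀ x ∈ S, 0 < ε x) →
    ∃ g, IsNashMap S T g ∧ ∀ x ∈ S, √(∑ i, (g x i - f x i) ^ 2) < ε x

/-- `A` is connected by analytic paths: each pair of its points is joined by a map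
`α : [0, 1] → A` which is real analytic on a neighbourhood of `[0, 1]`. -/
def ConnectedByAnalyticPaths {n : ℕ} (A : Set (Fin n → ℝ)) : Prop :=
  ∀ y ∈ A, ∀ z ∈ A, ∃ α : ℝ → (Fin n → ℝ), AnalyticOnNhd ℝ α (Set.Icc 0 1) ∧ α 0 = y ∧ α 1 = z ∧
    Set.MapsTo α (Set.Icc 0 1) A

/-- `T` is locally connected by analytic paths. -/
def LocallyConnectedByAnalyticPaths {n : ℕ} (T : Set (Fin n → ℝ)) : Prop :=
  ∀ x ∈ T, ∀ U : Set (Fin n → ℝ), IsOpen U → x ∈ U →
    ∃ W : Set (Fin n → ℝ), IsOpen W ∧ IsSemialgebraic W ∧ x ∈ W ∧ W ⊆ U ∧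
      ConnectedByAnalyticPaths (T ∩ W)

/-! ## The example -/

/-- The surface `z = √(x ^ 4 + y ^ 4)`. -/
def T : Set (Fin 3 → ℝ) := {x | x 2 ^ 2 = x 0 ^ 4 + x 1 ^ 4 ∧ 0 ≤ x 2}

theorem mem_T_iff (x : Fin 3 → ℝ) : x ∈ T ↔ x 2 = √(x 0 ^ 4 + x 1 ^ 4) := by
  constructor
  · rintro ⟨h1, h2⟩
    rw [← h1, Real.sqrt_sq h2]
  · intro h
    refine ⟨?_, ?_⟩
    · rw [h, Real.sq_sqrt (by positivity)]
    · rw [h]
      positivity

theorem semialgebraic_pair {ι : Type} {A B C : Set (ι → ℝ)} (hB : IsBasic B) (hC : IsBasic C)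
    (h : A = B ∪ C) : IsSemialgebraic A := by
  refine ⟨{B, C}, by simp, ?_, ?_⟩
  · rintro D (rfl | rfl)
    · exact hB
    · exact hC
  · rw [h]
    simp

theorem semialgebraic_of_basic {ι : Type} {A : Set (ι → ℝ)} (h : IsBasic A) :
    IsSemialgebraic A := ⟨{A}, by simp, by simpa using h, by simp⟩

theorem semialgebraic_univ {ι : Type} : IsSemialgebraic (Set.univ : Set (ι → ℝ)) :=
  semialgebraic_of_basic ⟨∅, ∅, by simp, by simp, by simp⟩

theorem semialgebraic_T : IsSemialgebraic T := by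
  refine semialgebraic_pair (B := {x | x 2 ^ 2 = x 0 ^ 4 + x 1 ^ 4 ∧ 0 < x 2})
    (C := {x | x 2 ^ 2 = x 0 ^ 4 + x 1 ^ 4 ∧ x 2 = 0}) ?_ ?_ ?_
  · refine ⟨{X 2 ^ 2 - (X 0 ^ 4 + X 1 ^ 4)}, {X 2}, by simp, by simp, ?_⟩
    ext x
    simp [sub_eq_zero]
  · refine ⟨{X 2 ^ 2 - (X 0 ^ 4 + X 1 ^ 4), X 2}, ∅, by simp, by simp, ?_⟩
    ext x
    simp [sub_eq_zero]
  · ext x
    simp only [T, Set.mem_ofPred_eq, Set.mem_union]
    constructor
    · rintro ⟨h1, h2⟩
      rcases h2.lt_or_eq with h3 | h3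
      · exact Or.inl ⟨h1, h3⟩
      · exact Or.inr ⟨h1, h3.symm⟩
    · rintro (⟨h1, h2⟩ | ⟨h1, h2⟩)
      · exact ⟨h1, h2.le⟩
      · exact ⟨h1, h2.ge⟩

/-- The homeomorphism from the plane to `T`. -/
noncomputable def f₀ (x : Fin 2 → ℝ) : Fin 3 → ℝ := ![x 0, x 1, √(x 0 ^ 4 + x 1 ^ 4)]

theorem continuous_f₀ : Continuous f₀ := by
  refine continuous_pi fun i => ?_
  fin_cases i <;> simp [f₀] <;> fun_prop

theorem f₀_mem (x : Fin 2 → ℝ) : f₀ x ∈ T := by
  rw [mem_T_iff]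
  simp [f₀]

theorem semialgebraic_f₀ : SemialgebraicOn f₀ Set.univ := by
  have hmem : ∀ z : Fin 2 ⊕ Fin 3 → ℝ, z ∈ graphOn f₀ Set.univ ↔
      z (Sum.inr 0) = z (Sum.inl 0) ∧ z (Sum.inr 1) = z (Sum.inl 1) ∧
        z (Sum.inr 2) = √(z (Sum.inl 0) ^ 4 + z (Sum.inl 1) ^ 4) := by
    intro z
    simp only [graphOn, Set.mem_univ, true_and, Set.mem_ofPred_eq, funext_iff, f₀]
    rw [Fin.forall_fin_succ, Fin.forall_fin_succ, Fin.forall_fin_succ]
    simp
  have hsq : ∀ x y z : ℝ, z = √(x ^ 4 + y ^ 4) ↔ z ^ 2 = x ^ 4 + y ^ 4 ∧ 0 ≤ z := by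
    intro x y z
    constructor
    · rintro rfl
      exact ⟨Real.sq_sqrt (by positivity), by positivity⟩
    · rintro ⟨h1, h2⟩
      rw [← h1, Real.sqrt_sq h2]
  refine semialgebraic_pair
    (B := {z | z (Sum.inr 0) = z (Sum.inl 0) ∧ z (Sum.inr 1) = z (Sum.inl 1) ∧
      z (Sum.inr 2) ^ 2 = z (Sum.inl 0) ^ 4 + z (Sum.inl 1) ^ 4 ∧ 0 < z (Sum.inr 2)})
    (C := {z | z (Sum.inr 0) = z (Sum.inl 0) ∧ z (Sum.inr 1) = z (Sum.inl 1) ∧
      z (Sum.inr 2) ^ 2 = z (Sum.inl 0) ^ 4 + z (Sum.inl 1) ^ 4 ∧ z (Sum.inr 2) = 0}) ?_ ?_ ?_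
  · refine ⟨{X (Sum.inr 0) - X (Sum.inl 0), X (Sum.inr 1) - X (Sum.inl 1),
      X (Sum.inr 2) ^ 2 - (X (Sum.inl 0) ^ 4 + X (Sum.inl 1) ^ 4)}, {X (Sum.inr 2)},
      by simp, by simp, ?_⟩
    ext x
    simp [sub_eq_zero]
    tauto
  · refine ⟨{X (Sum.inr 0) - X (Sum.inl 0), X (Sum.inr 1) - X (Sum.inl 1),
      X (Sum.inr 2) ^ 2 - (X (Sum.inl 0) ^ 4 + X (Sum.inl 1) ^ 4), X (Sum.inr 2)}, ∅,
      by simp, by simp, ?_⟩
    ext x
    simp [sub_eq_zero]
  · ext z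
    rw [hmem, hsq]
    simp only [Set.mem_ofPred_eq, Set.mem_union]
    constructor
    · rintro ⟨h1, h2, h3, h4⟩
      rcases h4.lt_or_eq with h5 | h5
      · exact Or.inl ⟨h1, h2, h3, h5⟩
      · exact Or.inr ⟨h1, h2, h3, h5.symm⟩
    · rintro (⟨h1, h2, h3, h4⟩ | ⟨h1, h2, h3, h4⟩)
      · exact ⟨h1, h2, h3, h4.le⟩
      · exact ⟨h1, h2, h3, h4.ge⟩

theorem semialgebraic_one : SemialgebraicOn (fun (_ : Fin 2 → ℝ) (_ : Fin 1) => (1 : ℝ))
    Set.univ := by
  refine semialgebraic_of_basic ⟨{X (Sum.inr 0) - 1}, ∅, by simp, by simp, ?_⟩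
  ext z
  simp [graphOn, funext_iff, sub_eq_zero]

/-! ### Local connectedness by analytic paths -/

theorem analyticAt_path (y z : Fin 3 → ℝ) (t₀ : ℝ) :
    AnalyticAt ℝ (fun t : ℝ => √((y 0 + t * (z 0 - y 0)) ^ 4 + (y 1 + t * (z 1 - y 1)) ^ 4)) t₀ := by
  by_cases h : y 0 + t₀ * (z 0 - y 0) = 0 ∧ y 1 + t₀ * (z 1 - y 1) = 0
  · have heq : (fun t : ℝ => √((y 0 + t * (z 0 - y 0)) ^ 4 + (y 1 + t * (z 1 - y 1)) ^ 4))
        = fun t : ℝ => (t - t₀) ^ 2 * √((z 0 - y 0) ^ 4 + (z 1 - y 1) ^ 4) := by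
      funext t
      have e0 : y 0 + t * (z 0 - y 0) = (t - t₀) * (z 0 - y 0) := by linarith [h.1]
      have e1 : y 1 + t * (z 1 - y 1) = (t - t₀) * (z 1 - y 1) := by linarith [h.2]
      rw [e0, e1]
      have e2 : ((t - t₀) * (z 0 - y 0)) ^ 4 + ((t - t₀) * (z 1 - y 1)) ^ 4
          = ((t - t₀) ^ 2) ^ 2 * ((z 0 - y 0) ^ 4 + (z 1 - y 1) ^ 4) := by ring
      rw [e2, Real.sqrt_mul (by positivity), Real.sqrt_sq (by positivity)]
    rw [heq]
    exact ((analyticAt_id.sub analyticAt_const).pow 2).mul analyticAt_const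
  · have hpos : 0 < (y 0 + t₀ * (z 0 - y 0)) ^ 4 + (y 1 + t₀ * (z 1 - y 1)) ^ 4 := by
      by_cases h0 : y 0 + t₀ * (z 0 - y 0) = 0
      · have h1 : y 1 + t₀ * (z 1 - y 1) ≠ 0 := fun h1 => h ⟨h0, h1⟩
        positivity
      · positivity
    have h1 : AnalyticAt ℝ (fun t : ℝ => (y 0 + t * (z 0 - y 0)) ^ 4
        + (y 1 + t * (z 1 - y 1)) ^ 4) t₀ :=
      ((analyticAt_const.add (analyticAt_id.mul analyticAt_const)).pow 4).add
        ((analyticAt_const.add (analyticAt_id.mul analyticAt_const)).pow 4)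
    have h2 : AnalyticAt ℝ Real.sqrt ((y 0 + t₀ * (z 0 - y 0)) ^ 4
        + (y 1 + t₀ * (z 1 - y 1)) ^ 4) :=
      (Real.contDiffAt_sqrt hpos.ne').analyticAt
    exact AnalyticAt.fun_comp (f := fun t : ℝ => (y 0 + t * (z 0 - y 0)) ^ 4
        + (y 1 + t * (z 1 - y 1)) ^ 4) (g := Real.sqrt) h2 h1

theorem locally_connected : LocallyConnectedByAnalyticPaths T := by
  intro x hx U hU hxU
  obtain ⟨ε, hε, hball⟩ := Metric.isOpen_iff.1 hU x hxU
  have hF : Continuous fun p : ℝ × ℝ => √(p.1 ^ 4 + p.2 ^ 4) := by fun_prop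
  obtain ⟨δ, hδ, hδF⟩ := Metric.continuousAt_iff.1 (hF.continuousAt (x := (x 0, x 1))) ε hε
  set r := min δ ε with hr
  have hr0 : 0 < r := lt_min hδ hε
  have hx2 := (mem_T_iff x).1 hx
  refine ⟨{y | |y 0 - x 0| < r ∧ |y 1 - x 1| < r ∧ |y 2 - x 2| < ε}, ?_, ?_, ?_, ?_, ?_⟩
  · refine IsOpen.and ?_ (IsOpen.and ?_ ?_) <;> exact isOpen_lt (by fun_prop) (by fun_prop)
  · refine semialgebraic_of_basic ⟨∅, {C (r ^ 2) - (X 0 - C (x 0)) ^ 2,
      C (r ^ 2) - (X 1 - C (x 1)) ^ 2, C (ε ^ 2) - (X 2 - C (x 2)) ^ 2}, by simp, by simp, ?_⟩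
    ext y
    simp [sub_pos, sq_lt_sq, abs_of_pos hr0, abs_of_pos hε]
  · simp [hr0, hε]
  · rintro y ⟨h0, h1, h2⟩
    apply hball
    rw [Metric.mem_ball, dist_pi_lt_iff hε]
    intro i
    rw [Real.dist_eq]
    fin_cases i
    · exact h0.trans_le (min_le_right _ _)
    · exact h1.trans_le (min_le_right _ _)
    · exact h2
  · rintro y ⟨hyT, hy0, hy1, hy2⟩ z ⟨hzT, hz0, hz1, hz2⟩
    refine ⟨fun t => ![y 0 + t * (z 0 - y 0), y 1 + t * (z 1 - y 1),
      √((y 0 + t * (z 0 - y 0)) ^ 4 + (y 1 + t * (z 1 - y 1)) ^ 4)], ?_, ?_, ?_, ?_⟩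
    · intro t _
      refine analyticAt_pi_iff.2 fun i => ?_
      fin_cases i
      · exact analyticAt_const.add (analyticAt_id.mul analyticAt_const)
      · exact analyticAt_const.add (analyticAt_id.mul analyticAt_const)
      · exact analyticAt_path y z t
    · funext i
      have := (mem_T_iff y).1 hyT
      fin_cases i <;> simp [this]
    · funext i
      have := (mem_T_iff z).1 hzT
      fin_cases i <;> simp [this]
    · intro t ht
      have key : ∀ a b c : ℝ, |a - c| < r → |b - c| < r → |a + t * (b - a) - c| < r := by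
        intro a b c ha hb
        rw [abs_lt] at ha hb ⊢
        rcases le_total a b with hab | hab
        · have h1 : 0 ≤ t * (b - a) := mul_nonneg ht.1 (by linarith)
          have h2 : t * (b - a) ≤ 1 * (b - a) := mul_le_mul_of_nonneg_right ht.2 (by linarith)
          constructor <;> linarith
        · have h1 : 0 ≤ t * (a - b) := mul_nonneg ht.1 (by linarith)
          have h2 : t * (a - b) ≤ 1 * (a - b) := mul_le_mul_of_nonneg_right ht.2 (by linarith)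
          constructor <;> linarith
      have e0 := key _ _ _ hy0 hz0
      have e1 := key _ _ _ hy1 hz1
      refine ⟨?_, ?_, ?_, ?_⟩
      · rw [mem_T_iff]
        simp
      · simpa using e0
      · simpa using e1
      · have h1 := hδF (x := (y 0 + t * (z 0 - y 0), y 1 + t * (z 1 - y 1))) (by
          rw [Prod.dist_eq, max_lt_iff, Real.dist_eq, Real.dist_eq]
          exact ⟨e0.trans_le (min_le_left _ _), e1.trans_le (min_le_left _ _)⟩)
        rw [Real.dist_eq] at h1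
        simp only at h1
        rw [← hx2] at h1
        simpa using h1

/-! ### The failure of approximation -/

theorem not_isATS : ¬ IsATS T := by
  intro hT
  obtain ⟨g, ⟨hgT, hg⟩, hgf⟩ := hT 2 (by norm_num) Set.univ Set.univ_nonempty semialgebraic_univ
    (isOpen_univ.isOpenEmbedding_subtypeVal.locallyCompactSpace) f₀ ⟨fun x _ => f₀_mem x, continuous_f₀.continuousOn, semialgebraic_f₀⟩
    (fun _ => 1) continuousOn_const semialgebraic_one (fun _ _ => one_pos)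
  have han : ∀ i, ∀ x, AnalyticAt ℝ (fun x => g x i) x := by
    intro i x
    obtain ⟨Ω, h, hΩ, hN, hgh⟩ := hg i
    have h1 : (fun x => g x i) = h := by
      funext x
      exact hgh x (Set.mem_univ x)
    rw [h1]
    exact hN.analytic x (hΩ (Set.mem_univ x))
  have hpair : ∀ p : ℝ × ℝ, AnalyticAt ℝ (fun p : ℝ × ℝ => (![p.1, p.2] : Fin 2 → ℝ)) p := by
    intro p
    refine analyticAt_pi_iff.2 fun i => ?_
    fin_cases i
    · exact analyticAt_fst
    · exact analyticAt_snd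
  have han2 : ∀ i, ∀ p : ℝ × ℝ, AnalyticAt ℝ (fun p : ℝ × ℝ => g ![p.1, p.2] i) p := fun i p =>
    AnalyticAt.fun_comp (f := fun p : ℝ × ℝ => (![p.1, p.2] : Fin 2 → ℝ)) (g := fun x => g x i)
      (han i _) (hpair p)
  have hclose : ∀ (i : Fin 3) (x : Fin 2 → ℝ), |g x i - f₀ x i| < 1 := by
    intro i x
    have h1 := hgf x (Set.mem_univ x)
    refine lt_of_le_of_lt ?_ h1
    rw [← Real.sqrt_sq_eq_abs]
    apply Real.sqrt_le_sqrt
    exact Finset.single_le_sum (f := fun i => (g x i - f₀ x i) ^ 2) (fun _ _ => sq_nonneg _)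
      (Finset.mem_univ i)
  refine Pool.Agent.V1152.Quartic.no_analytic (a := fun p => g ![p.1, p.2] 0)
    (b := fun p => g ![p.1, p.2] 1) (c := fun p => g ![p.1, p.2] 2) (han2 0) (han2 1) (han2 2)
    (fun p => (hgT (Set.mem_univ _)).1) (fun p => (hgT (Set.mem_univ _)).2) (fun p => ?_)
    (fun p => ?_)
  · simpa [f₀] using hclose 0 ![p.1, p.2]
  · simpa [f₀] using hclose 1 ![p.1, p.2]

/-- **Local connectedness by analytic paths does not imply the Nash approximation property.** There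
is a nonempty semialgebraic set `T` in `ℝ ^ 3` which is locally connected by analytic paths and is
not an `(𝒩, 0)`-approximation target space. -/
theorem result : ∃ T : Set (Fin 3 → ℝ), T.Nonempty ∧ IsSemialgebraic T ∧
    LocallyConnectedByAnalyticPaths T ∧ ¬ IsATS T :=
  ⟨T, ⟨f₀ 0, f₀_mem 0⟩, semialgebraic_T, locally_connected, not_isATS⟩

end Pool.Agent.Results.MP_1c24b6_ag.NotTarget
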